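import Pool.Agent.J6H9.EX.Stm2

set_option autoImplicit false

/-! Module EX-REP (helper9). -/

namespace Pool.Agent.J6H35.EX

open Filter Topology Pool.Agent.J6H9.EU Pool.Agent.J6H9.EX

/-- partial sums -/
noncomputable def FF (f : ℕ → ℝ) (n : ℕ) : ℝ := ∑ i ∈ Finset.range n, f i

theorem FF_succ (f : ℕ → ℝ) (n : ℕ) : FF f (n + 1) = FF f n + f n := Finset.sum_range_succ _ _

theorem FF_mono {f : ℕ → ℝ} (hf : ∀ n, 0 ≤ f n) : Monotone (FF f) := by
  refine monotone_nat_of_le_succ fun n => ?_
  rw [FF_succ]
  linarith [hf n]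

theorem exists_seq {f : ℕ → ℝ} (h : Tendsto (FF f) atTop atTop) :
    ∃ a : ℕ → ℕ, a 0 = 0 ∧ ∀ k, a k < a (k + 1) ∧ 2 * FF f (a k) + 1 ≤ FF f (a (k + 1)) ∧
      ∀ n, a k < n → n < a (k + 1) → FF f n < 2 * FF f (a k) + 1 := by
  classical
  have step : ∀ x : ℕ, ∃ y : ℕ, x < y ∧ 2 * FF f x + 1 ≤ FF f y ∧
      ∀ n, x < n → n < y → FF f n < 2 * FF f x + 1 := by
    intro x
    have hx : ∃ n, x < n ∧ 2 * FF f x + 1 ≤ FF f n := by
      obtain ⟨n, h1, h2⟩ := ((h.eventually_ge_atTop (2 * FF f x + 1)).and (eventually_gt_atTop x)).exists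
      exact ⟨n, h2, h1⟩
    refine ⟨Nat.find hx, (Nat.find_spec hx).1, (Nat.find_spec hx).2, fun n h1 h2 => ?_⟩
    by_contra h3
    exact Nat.find_min hx h2 ⟨h1, not_lt.mp h3⟩
  choose g hg using step
  refine ⟨fun k => g^[k] 0, rfl, fun k => ?_⟩
  simp only [Function.iterate_succ_apply']
  exact hg _

theorem main : S_REP := by
  classical
  intro f hf hF0 hf0
  have hF : Tendsto (FF f) atTop atTop := hF0
  have hf' : Tendsto (fun n => f n / FF f (n + 1)) atTop (𝓝 0) := hf0
  have hfn : ∀ n, 0 ≤ f n := fun n => (hf n).le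
  have hmono := FF_mono hfn
  have hFn : ∀ n, 0 ≤ FF f n := fun n => Finset.sum_nonneg fun i _ => hfn i
  obtain ⟨a, ha0, ha⟩ := exists_seq hF
  have hsm : StrictMono a := strictMono_nat_of_lt_succ fun k => (ha k).1
  have hak : ∀ k, k ≤ a k := hsm.id_le
  -- the index
  have hidx : ∀ x, ∃ k, a k ≤ x ∧ x < a (k + 1) := by
    intro x
    have h1 : ∃ k, x < a k := ⟨x + 1, lt_of_lt_of_le (Nat.lt_succ_self x) (hak _)⟩
    have h2 : Nat.find h1 ≠ 0 := by
      intro h
      have := Nat.find_spec h1
      rw [h, ha0] at this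
      exact absurd this (Nat.not_lt_zero _)
    obtain ⟨k, hk⟩ := Nat.exists_eq_succ_of_ne_zero h2
    refine ⟨k, ?_, ?_⟩
    · have := Nat.find_min h1 (m := k) (by omega)
      omega
    · have := Nat.find_spec h1
      rw [hk] at this
      exact this
  choose idx hidx1 hidx2 using hidx
  have huniq : ∀ x k, a k ≤ x → x < a (k + 1) → idx x = k := by
    intro x k h1 h2
    have h3 : a (idx x) < a (k + 1) := lt_of_le_of_lt (hidx1 x) h2
    have h4 : a k < a (idx x + 1) := lt_of_le_of_lt h1 (hidx2 x)
    have h5 := hsm.lt_iff_lt.mp h3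
    have h6 := hsm.lt_iff_lt.mp h4
    omega
  set m : ℕ → ℝ := fun k => FF f (a (k + 1)) - FF f (a k) with hm
  have hm2 : ∀ k, FF f (a (k + 1)) ≤ 2 * m k := by
    intro k
    have := (ha k).2.1
    simp only [hm]
    linarith
  have hFpos : ∀ k, 1 ≤ FF f (a (k + 1)) := by
    intro k
    have := (ha k).2.1
    have := hFn (a k)
    linarith
  have hmpos : ∀ k, 0 < m k := by
    intro k
    have := hm2 k
    have := hFpos k
    linarith
  set d : ℕ → ℕ := fun k => a (k + 1) - a k with hd
  have hst : ∀ k, st d k = a k := by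
    intro k
    induction k with
    | zero => simp [st, ha0]
    | succ k ih =>
      have h1 : st d (k + 1) = st d k + d k := by
        unfold st
        exact Finset.sum_range_succ _ _
      rw [h1, ih]
      have := (ha k).1
      simp only [hd]
      omega
  have hDn : ∀ k, Dn d k = Finset.Ico (a k) (a (k + 1)) := by
    intro k
    unfold Dn
    rw [hst]
    have := (ha k).1
    have h2 : a k + d k = a (k + 1) := by
      simp only [hd]
      omega
    rw [h2]
  set w : ℕ → ℝ := fun x => f x / m (idx x) with hw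
  have hwk : ∀ k, ∀ x ∈ Dn d k, w x = f x / m k := by
    intro k x hx
    rw [hDn, Finset.mem_Ico] at hx
    simp only [hw]
    rw [huniq x k hx.1 hx.2]
  -- sums over parts of the intervals
  have hG : ∀ (A : Set ℕ) (k : ℕ), ∑ x ∈ (Dn d k).filter (· ∈ A), w x =
      (FF (fun i => if i ∈ A then f i else 0) (a (k + 1)) -
        FF (fun i => if i ∈ A then f i else 0) (a k)) / m k := by
    intro A k
    have h1 : ∑ x ∈ (Dn d k).filter (· ∈ A), w x = ∑ x ∈ (Dn d k).filter (· ∈ A), f x / m k :=
      Finset.sum_congr rfl fun x hx => hwk k x (Finset.mem_of_mem_filter x hx)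
    rw [h1, ← Finset.sum_div, Finset.sum_filter, hDn]
    congr 1
    exact Finset.sum_Ico_eq_sub _ (ha k).1.le
  have htot : ∀ k, ∑ x ∈ Dn d k, w x = 1 := by
    intro k
    rw [Finset.sum_congr rfl (hwk k), ← Finset.sum_div, hDn, Finset.sum_Ico_eq_sub _ (ha k).1.le]
    exact div_self (hmpos k).ne'
  refine ⟨w, d, ⟨?_, ?_, ?_, ?_, ?_⟩, ?_⟩
  · intro x
    exact div_pos (hf x) (hmpos _)
  · intro k
    have := (ha k).1
    simp only [hd]
    omega
  · intro k
    exact (htot k).le
  · exact ⟨1, one_pos, fun k => (htot k).ge⟩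
  · intro ε hε
    obtain ⟨M, hM⟩ := eventually_atTop.mp (hf'.eventually (ge_mem_nhds (show (0:ℝ) < ε / 2 by positivity)))
    refine ⟨M, fun n hn x hx => ?_⟩
    rw [hwk n x hx]
    rw [hDn, Finset.mem_Ico] at hx
    have h1 : M ≤ x := hn.trans ((hak n).trans hx.1)
    have h2 := hM x h1
    have h3 : 0 < FF f (x + 1) := by
      rw [FF_succ]
      linarith [hFn x, hf x]
    have h4 : FF f (x + 1) ≤ FF f (a (n + 1)) := hmono hx.2
    have h5 := hm2 n
    rw [div_le_iff₀ h3] at h2
    rw [div_le_iff₀ (hmpos n)]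
    calc f x ≤ ε / 2 * FF f (x + 1) := h2
      _ ≤ ε / 2 * (2 * m n) := mul_le_mul_of_nonneg_left (h4.trans h5) (by positivity)
      _ = ε * m n := by ring
  · ext A
    set fA : ℕ → ℝ := fun i => if i ∈ A then f i else 0 with hfA
    have hfA0 : ∀ i, 0 ≤ fA i := by
      intro i
      simp only [hfA]
      split_ifs
      · exact hfn i
      · exact le_rfl
    have hfA1 : ∀ i, fA i ≤ f i := by
      intro i
      simp only [hfA]
      split_ifs
      · exact le_rfl
      · exact hfn i
    have hGm := FF_mono hfA0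
    have hGF : ∀ n, FF fA n ≤ FF f n := fun n => Finset.sum_le_sum fun i _ => hfA1 i
    have hGn : ∀ n, 0 ≤ FF fA n := fun n => Finset.sum_nonneg fun i _ => hfA0 i
    have hEU : A ∈ EU f ↔ Tendsto (fun n => FF fA n / FF f n) atTop (𝓝 0) := by
      have : ∀ n, FF fA n / FF f n =
          (∑ i ∈ (Finset.range n).filter (· ∈ A), f i) / ∑ i ∈ Finset.range n, f i := by
        intro n
        rw [Finset.sum_filter]
        rfl
      simp only [this]
      rfl
    have hW : A ∈ W w d ↔ Tendsto (fun k => (FF fA (a (k + 1)) - FF fA (a k)) / m k) atTop (𝓝 0) := by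
      have : ∀ k, (FF fA (a (k + 1)) - FF fA (a k)) / m k = ∑ x ∈ (Dn d k).filter (· ∈ A), w x :=
        fun k => (hG A k).symm
      simp only [this]
      rfl
    rw [hEU, hW]
    constructor
    · intro h
      have h1 : Tendsto (fun k => a (k + 1)) atTop atTop := hsm.tendsto_atTop.comp (tendsto_add_atTop_nat 1)
      have h2 : Tendsto (fun k => 2 * (FF fA (a (k + 1)) / FF f (a (k + 1)))) atTop (𝓝 0) := by
        have := (h.comp h1).const_mul 2
        rw [mul_zero] at this
        exact this
      refine squeeze_zero ?_ ?_ h2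
      · intro k
        exact div_nonneg (sub_nonneg.mpr (hGm (ha k).1.le)) (hmpos k).le
      · intro k
        have h3 := hFpos k
        have h4 := hm2 k
        rw [← mul_div_assoc, div_le_div_iff₀ (hmpos k) (by linarith)]
        calc (FF fA (a (k + 1)) - FF fA (a k)) * FF f (a (k + 1))
            ≤ FF fA (a (k + 1)) * (2 * m k) :=
              mul_le_mul (by linarith [hGn (a k)]) h4 (by linarith) (hGn _)
          _ = 2 * FF fA (a (k + 1)) * m k := by ring
    · intro h
      rw [Metric.tendsto_atTop]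
      intro ε hε
      obtain ⟨K₁, hK₁⟩ := eventually_atTop.mp
        (h.eventually (ge_mem_nhds (show (0:ℝ) < ε / 12 by positivity)))
      obtain ⟨K₂, hK₂⟩ := eventually_atTop.mp
        (hf'.eventually (ge_mem_nhds (show (0:ℝ) < 1 / 4 by positivity)))
      set K₀ := max (max K₁ K₂) 1 with hK₀
      have hind : ∀ k, K₀ ≤ k → FF fA (a k) ≤ FF f (a K₀) + ε / 12 * FF f (a k) := by
        intro k hk
        induction k, hk using Nat.le_induction with
        | base =>
          have := hGF (a K₀)
          have : 0 ≤ ε / 12 * FF f (a K₀) := mul_nonneg (by positivity) (hFn _)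
          linarith
        | succ k hk ih =>
          have h1 : K₁ ≤ k := le_trans (le_trans (le_max_left _ _) (le_max_left _ _)) hk
          have h2 := hK₁ k h1
          rw [div_le_iff₀ (hmpos k)] at h2
          simp only [hm] at h2
          linarith
      have hfour : ∀ k, K₀ ≤ k → FF f (a (k + 1)) ≤ 4 * FF f (a k) := by
        intro k hk
        have h1 : 1 ≤ k := le_trans (le_max_right _ _) hk
        have h2 : 1 ≤ FF f (a k) := by
          obtain ⟨j, rfl⟩ := Nat.exists_eq_add_of_le h1
          rw [Nat.add_comm]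
          exact hFpos j
        have h3 := (ha k).1
        obtain ⟨n, hn⟩ : ∃ n, a (k + 1) = n + 1 := ⟨a (k + 1) - 1, by omega⟩
        have h4 : FF f n ≤ 2 * FF f (a k) + 1 := by
          rcases Nat.lt_or_ge (a k) n with h5 | h5
          · exact ((ha k).2.2 n h5 (by omega)).le
          · have := hmono h5
            linarith [hFn (a k)]
        have h5 : K₂ ≤ n := by
          have h6 : K₂ ≤ k := le_trans (le_trans (le_max_right _ _) (le_max_left _ _)) hk
          have := hak (k + 1)
          omega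
        have h6 := hK₂ n h5
        rw [div_le_iff₀ (by rw [FF_succ]; linarith [hFn n, hf n])] at h6
        rw [hn, FF_succ] at *
        linarith
      obtain ⟨N₁, hN₁⟩ := eventually_atTop.mp (hF.eventually_ge_atTop (2 / ε * FF f (a K₀) + 1))
      refine ⟨max N₁ (a K₀), fun N hN => ?_⟩
      have e1 : N₁ ≤ N := le_trans (le_max_left _ _) hN
      have e2 : a K₀ ≤ N := le_trans (le_max_right _ _) hN
      have e3 : K₀ ≤ idx N := by
        by_contra hc
        have : a (idx N + 1) ≤ a K₀ := hsm.monotone (by omega)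
        have := hidx2 N
        omega
      have e4 := hind (idx N + 1) (by omega)
      have e5 := hfour (idx N) e3
      have e6 : FF f (a (idx N)) ≤ FF f N := hmono (hidx1 N)
      have e7 : FF fA N ≤ FF fA (a (idx N + 1)) := hGm (hidx2 N).le
      have e8 := hN₁ N e1
      have e9 : 0 ≤ 2 / ε * FF f (a K₀) := mul_nonneg (by positivity) (hFn _)
      have e10 : 0 < FF f N := by linarith
      have e11 : FF f (a K₀) < ε / 2 * FF f N := by
        have : ε / 2 * (2 / ε * FF f (a K₀) + 1) ≤ ε / 2 * FF f N :=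
          mul_le_mul_of_nonneg_left e8 (by positivity)
        have e12 : ε / 2 * (2 / ε * FF f (a K₀) + 1) = FF f (a K₀) + ε / 2 := by
          field_simp
        linarith
      rw [Real.dist_eq, sub_zero, abs_of_nonneg (div_nonneg (hGn N) e10.le), div_lt_iff₀ e10]
      have e13 : ε / 12 * FF f (a (idx N + 1)) ≤ ε / 12 * (4 * FF f N) :=
        mul_le_mul_of_nonneg_left (by linarith) (by positivity)
      have e14 : ε / 12 * (4 * FF f N) = ε / 3 * FF f N := by ring
      have e15 : 0 < ε * FF f N := mul_pos hε e10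
      linarith

end Pool.Agent.J6H35.EX
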